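import Pool.Agent.H177R3.LatD

/-! Combinatorial core: if the phases `θ y n` are not locally aligned then they are not aligned in
windows of a much larger scale either. -/

open Finset

namespace TH801.FM

open H177.Lat

lemma sin_sq_le (x y : ℝ) :
    (Real.sin (x + y)) ^ 2 ≤ 2 * (Real.sin x) ^ 2 + 2 * (Real.sin y) ^ 2 := by
  have h := abs_sin_add_le x y
  have h0 := abs_nonneg (Real.sin (x + y))
  have h1 := sq_abs (Real.sin (x + y))
  have h2 := sq_abs (Real.sin x)
  have h3 := sq_abs (Real.sin y)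
  nlinarith [abs_nonneg (Real.sin x), abs_nonneg (Real.sin y),
    sq_nonneg (|Real.sin x| - |Real.sin y|)]

lemma abs_sin_sub_le (x y : ℝ) : |Real.sin x| ≤ |Real.sin y| + |x - y| := by
  have h := abs_sin_add_le y (x - y)
  rw [add_sub_cancel] at h
  have h2 : |Real.sin (x - y)| ≤ |x - y| := Real.abs_sin_le_abs
  linarith

theorem core2 (I : Finset ℕ) (R : ℕ) (hR : 2 ≤ R) (θ0 θ κ D C1 CR M Lg c0 : ℝ) (hκ : 0 < κ)
    (hD : 0 ≤ D) (hCR : 0 < CR) (hM : 0 < M) (hLg : 0 < Lg) (hc0 : 0 < c0)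
    (hRbig : 16 * D * C1 / R ≤ κ / 4)
    (hθ : Real.pi * |θ - θ0| * R * CR ≤ κ / 4)
    (y : ℕ → ℝ) (G : ℝ → ℝ) (hG0 : ∀ x, 0 ≤ G x) (hG1 : ∀ x, G x ≤ 1)
    (hGD : ∀ x, G x * x ^ 2 ≤ D)
    (h1 : ∑ n ∈ I, (kI I y 1 n : ℝ) ^ 2 ≤ C1 * M)
    (hk : ∑ n ∈ I, (kI I y R n : ℝ) ^ 2 ≤ CR * M)
    (hF : κ * M ≤ ∑ n ∈ I, ∑ n' ∈ I,
      G (y n - y n') * |Real.sin (Real.pi * θ0 * (y n - y n'))|)
    (w : ℕ → ℕ → ℝ) (hw0 : ∀ n m, 0 ≤ w n m)
    (hw : ∀ n ∈ I, ∀ n' ∈ I, |y n - y n'| ≤ R → ∀ m ∈ I, w n m ≤ 2 * w n' m)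
    (hl : ((I.filter (fun n => ∑ m ∈ I, w n m < c0 * Lg)).card : ℝ) ≤ κ ^ 2 / (64 * CR) * M) :
    κ ^ 2 / (64 * CR) * (c0 * (κ / (8 * CR)) ^ 2 / 6) * (M * Lg) ≤
      ∑ n ∈ I, ∑ m ∈ I, w n m * (Real.sin (Real.pi * θ * (y n - y m))) ^ 2 := by
  classical
  have hR0 : (0 : ℝ) < R := by positivity
  set ε : ℝ := κ / (8 * CR) with hε
  have hε0 : 0 < ε := by positivity
  set lam : ℝ := c0 * ε ^ 2 / 6 with hlam
  have hlam0 : 0 < lam := by positivity
  set sn : ℝ → ℝ := fun x => |Real.sin (Real.pi * θ * x)| with hsn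
  have hsn0 : ∀ x, 0 ≤ sn x := fun x => abs_nonneg _
  have hsn1 : ∀ x, sn x ≤ 1 := fun x => Real.abs_sin_le_one _
  have hsneg : ∀ x, sn (-x) = sn x := by
    intro x
    simp only [hsn]
    rw [mul_neg, Real.sin_neg, abs_neg]
  set A : ℕ → ℝ := fun n => ∑ m ∈ I, w n m * (Real.sin (Real.pi * θ * (y n - y m))) ^ 2 with hA
  have hA0 : ∀ n, 0 ≤ A n := fun n => Finset.sum_nonneg fun m _ => mul_nonneg (hw0 n m) (sq_nonneg _)
  set k : ℕ → ℕ := fun n => kI I y R n with hkdef
  set B := I.filter (fun n => lam * Lg ≤ A n) with hB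
  set Lt := I.filter (fun n => ∑ m ∈ I, w n m < c0 * Lg) with hLt
  set S := B ∪ Lt with hS
  have hSI : S ⊆ I := Finset.union_subset (Finset.filter_subset _ _) (Finset.filter_subset _ _)
  -- near pairs outside `S` are aligned
  have hgood : ∀ n ∈ I, ∀ n' ∈ I, n ∉ S → n' ∉ S → |y n - y n'| ≤ R → sn (y n - y n') ≤ ε := by
    intro n hn n' hn' hnS hnS' hnear
    have h2 : c0 * Lg ≤ ∑ m ∈ I, w n m := by
      by_contra hcon
      push Not at hcon
      exact hnS (Finset.mem_union_right _ (Finset.mem_filter.2 ⟨hn, hcon⟩))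
    have h3 : A n < lam * Lg := by
      by_contra hcon
      push Not at hcon
      exact hnS (Finset.mem_union_left _ (Finset.mem_filter.2 ⟨hn, hcon⟩))
    have h4 : A n' < lam * Lg := by
      by_contra hcon
      push Not at hcon
      exact hnS' (Finset.mem_union_left _ (Finset.mem_filter.2 ⟨hn', hcon⟩))
    have h5 : (∑ m ∈ I, w n m) * (Real.sin (Real.pi * θ * (y n - y n'))) ^ 2 ≤
        2 * A n + 4 * A n' := by
      rw [Finset.sum_mul]
      have h6 : 2 * A n + 4 * A n' = ∑ m ∈ I, (2 * (w n m *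
          (Real.sin (Real.pi * θ * (y n - y m))) ^ 2) + 4 * (w n' m *
          (Real.sin (Real.pi * θ * (y n' - y m))) ^ 2)) := by
        rw [Finset.sum_add_distrib, ← Finset.mul_sum, ← Finset.mul_sum]
      rw [h6]
      refine Finset.sum_le_sum fun m hm => ?_
      have h7 := sin_sq_le (Real.pi * θ * (y n - y m)) (-(Real.pi * θ * (y n' - y m)))
      have e : Real.pi * θ * (y n - y m) + -(Real.pi * θ * (y n' - y m)) =
          Real.pi * θ * (y n - y n') := by ring
      rw [e, Real.sin_neg, neg_sq] at h7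
      have h8 := hw n hn n' hn' hnear m hm
      have h9 := hw0 n m
      have h10 := sq_nonneg (Real.sin (Real.pi * θ * (y n' - y m)))
      calc w n m * (Real.sin (Real.pi * θ * (y n - y n'))) ^ 2
          ≤ w n m * (2 * (Real.sin (Real.pi * θ * (y n - y m))) ^ 2 +
            2 * (Real.sin (Real.pi * θ * (y n' - y m))) ^ 2) := mul_le_mul_of_nonneg_left h7 h9
        _ = 2 * (w n m * (Real.sin (Real.pi * θ * (y n - y m))) ^ 2) +
            w n m * (2 * (Real.sin (Real.pi * θ * (y n' - y m))) ^ 2) := by ring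
        _ ≤ 2 * (w n m * (Real.sin (Real.pi * θ * (y n - y m))) ^ 2) +
            2 * w n' m * (2 * (Real.sin (Real.pi * θ * (y n' - y m))) ^ 2) := by
            gcongr
        _ = _ := by ring
    have h6 : c0 * Lg * (Real.sin (Real.pi * θ * (y n - y n'))) ^ 2 ≤ 6 * (lam * Lg) := by
      have h7 : c0 * Lg * (Real.sin (Real.pi * θ * (y n - y n'))) ^ 2 ≤
          (∑ m ∈ I, w n m) * (Real.sin (Real.pi * θ * (y n - y n'))) ^ 2 :=
        mul_le_mul_of_nonneg_right h2 (sq_nonneg _)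
      linarith
    have h7 : (sn (y n - y n')) ^ 2 ≤ ε ^ 2 := by
      have e : (sn (y n - y n')) ^ 2 = (Real.sin (Real.pi * θ * (y n - y n'))) ^ 2 := sq_abs _
      rw [e]
      have h8 : c0 * Lg * (Real.sin (Real.pi * θ * (y n - y n'))) ^ 2 ≤ c0 * Lg * ε ^ 2 := by
        rw [hlam] at h6
        calc _ ≤ _ := h6
          _ = c0 * Lg * ε ^ 2 := by ring
      exact le_of_mul_le_mul_left h8 (by positivity)
    exact le_of_sq_le_sq h7 hε0.le
  -- pointwise bound for the inner sums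
  have hpt : ∀ n ∈ I, ∑ n' ∈ I, G (y n - y n') * |Real.sin (Real.pi * θ0 * (y n - y n'))| ≤
      D * (∑ n' ∈ I.filter (fun n' => (R : ℝ) < |y n - y n'|), 1 / (y n - y n') ^ 2) +
      Real.pi * |θ - θ0| * R * (k n : ℝ) +
      (ε * (k n : ℝ) + (if n ∈ S then (k n : ℝ) else 0) +
        ∑ n' ∈ S, if |y n - y n'| ≤ R then (1 : ℝ) else 0) := by
    intro n hn
    rw [← Finset.sum_filter_add_sum_filter_not I (fun n' => (R : ℝ) < |y n - y n'|)]
    have hfar : ∑ n' ∈ I.filter (fun n' => (R : ℝ) < |y n - y n'|),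
        G (y n - y n') * |Real.sin (Real.pi * θ0 * (y n - y n'))| ≤
        D * (∑ n' ∈ I.filter (fun n' => (R : ℝ) < |y n - y n'|), 1 / (y n - y n') ^ 2) := by
      rw [Finset.mul_sum]
      refine Finset.sum_le_sum fun n' hn' => ?_
      have h2 := (mem_filter.1 hn').2
      have h3 : 0 < (y n - y n') ^ 2 := by
        rw [← sq_abs]
        have : 0 < |y n - y n'| := hR0.trans h2
        positivity
      rw [mul_one_div, le_div_iff₀ h3]
      have h4 := hGD (y n - y n')
      have h5 : |Real.sin (Real.pi * θ0 * (y n - y n'))| ≤ 1 := Real.abs_sin_le_one _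
      have h6 := abs_nonneg (Real.sin (Real.pi * θ0 * (y n - y n')))
      have h7 := hG0 (y n - y n')
      calc G (y n - y n') * |Real.sin (Real.pi * θ0 * (y n - y n'))| * (y n - y n') ^ 2
          = (G (y n - y n') * (y n - y n') ^ 2) * |Real.sin (Real.pi * θ0 * (y n - y n'))| := by
            ring
        _ ≤ D * 1 := mul_le_mul h4 h5 h6 hD
        _ = D := mul_one _
    have hnear : ∑ n' ∈ I.filter (fun n' => ¬ (R : ℝ) < |y n - y n'|),
        G (y n - y n') * |Real.sin (Real.pi * θ0 * (y n - y n'))| ≤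
        Real.pi * |θ - θ0| * R * (k n : ℝ) +
        (ε * (k n : ℝ) + (if n ∈ S then (k n : ℝ) else 0) +
        ∑ n' ∈ S, if |y n - y n'| ≤ R then (1 : ℝ) else 0) := by
      have e0 : I.filter (fun n' => ¬ (R : ℝ) < |y n - y n'|) =
          I.filter (fun n' => |y n - y n'| ≤ R) := by
        refine Finset.filter_congr fun n' _ => ?_
        rw [not_lt]
      rw [e0]
      have hkn : (k n : ℝ) = ∑ n' ∈ I.filter (fun n' => |y n - y n'| ≤ (R : ℝ)), (1 : ℝ) := by
        rw [Finset.sum_const, nsmul_eq_mul, mul_one]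
        rfl
      have hSs : ∑ n' ∈ I.filter (fun n' => |y n - y n'| ≤ (R : ℝ)),
          (if n' ∈ S then (1 : ℝ) else 0) ≤ ∑ n' ∈ S, if |y n - y n'| ≤ R then (1 : ℝ) else 0 := by
        rw [← Finset.sum_filter, ← Finset.sum_filter]
        refine Finset.sum_le_sum_of_subset_of_nonneg ?_ fun _ _ _ => zero_le_one
        intro n' hn'
        rw [Finset.mem_filter, Finset.mem_filter] at hn'
        rw [Finset.mem_filter]
        exact ⟨hn'.2, hn'.1.2⟩
      have hterm : ∀ n' ∈ I.filter (fun n' => |y n - y n'| ≤ (R : ℝ)),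
          G (y n - y n') * |Real.sin (Real.pi * θ0 * (y n - y n'))| ≤
          Real.pi * |θ - θ0| * R + (ε + (if n ∈ S then (1 : ℝ) else 0) +
            (if n' ∈ S then (1 : ℝ) else 0)) := by
        intro n' hn'
        rw [Finset.mem_filter] at hn'
        have h2 : G (y n - y n') * |Real.sin (Real.pi * θ0 * (y n - y n'))| ≤
            |Real.sin (Real.pi * θ0 * (y n - y n'))| := by
          have h3 := abs_nonneg (Real.sin (Real.pi * θ0 * (y n - y n')))
          nlinarith [hG1 (y n - y n')]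
        have h3 : |Real.sin (Real.pi * θ0 * (y n - y n'))| ≤ sn (y n - y n') +
            Real.pi * |θ - θ0| * R := by
          refine (abs_sin_sub_le (Real.pi * θ0 * (y n - y n')) (Real.pi * θ * (y n - y n'))).trans ?_
          have e : Real.pi * θ0 * (y n - y n') - Real.pi * θ * (y n - y n') =
              -(Real.pi * (θ - θ0) * (y n - y n')) := by ring
          rw [e, abs_neg, abs_mul, abs_mul, abs_of_pos Real.pi_pos]
          have h4 : Real.pi * |θ - θ0| * |y n - y n'| ≤ Real.pi * |θ - θ0| * R :=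
            mul_le_mul_of_nonneg_left hn'.2 (by positivity)
          linarith
        have h4 : sn (y n - y n') ≤ ε + (if n ∈ S then (1 : ℝ) else 0) +
            (if n' ∈ S then (1 : ℝ) else 0) := by
          by_cases hs : n ∈ S
          · rw [if_pos hs]
            have : (0 : ℝ) ≤ if n' ∈ S then (1 : ℝ) else 0 := by split_ifs <;> norm_num
            linarith [hsn1 (y n - y n')]
          · by_cases hs' : n' ∈ S
            · rw [if_pos hs', if_neg hs]
              linarith [hsn1 (y n - y n')]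
            · rw [if_neg hs, if_neg hs']
              have := hgood n hn n' hn'.1 hs hs' hn'.2
              linarith
        linarith
      refine (Finset.sum_le_sum hterm).trans ?_
      rw [Finset.sum_add_distrib, Finset.sum_add_distrib, Finset.sum_const, Finset.sum_const,
        nsmul_eq_mul, nsmul_eq_mul]
      have e1 : ((I.filter (fun n' => |y n - y n'| ≤ (R : ℝ))).card : ℝ) = (k n : ℝ) := rfl
      rw [e1]
      have e2 : (k n : ℝ) * (ε + if n ∈ S then (1 : ℝ) else 0) =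
          ε * k n + if n ∈ S then (k n : ℝ) else 0 := by
        split_ifs <;> ring
      rw [e2]
      linarith
    linarith
  have hk1 : ∑ n ∈ I, (k n : ℝ) ≤ CR * M := by
    refine (Finset.sum_le_sum fun n _ => ?_).trans hk
    have : (k n : ℝ) ≤ (k n : ℝ) ^ 2 := by
      rcases Nat.eq_zero_or_pos (k n) with h | h
      · rw [h]; norm_num
      · have : (1 : ℝ) ≤ k n := by exact_mod_cast h
        nlinarith
    exact this
  have hk11 : ∑ n ∈ I, (kI I y 1 n : ℝ) ≤ C1 * M := by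
    refine (Finset.sum_le_sum fun n _ => ?_).trans h1
    rcases Nat.eq_zero_or_pos (kI I y 1 n) with h | h
    · rw [h]; norm_num
    · have : (1 : ℝ) ≤ kI I y 1 n := by exact_mod_cast h
      nlinarith
  have hswap : ∑ n ∈ I, ∑ n' ∈ S, (if |y n - y n'| ≤ R then (1 : ℝ) else 0) =
      ∑ n' ∈ S, (k n' : ℝ) := by
    rw [Finset.sum_comm]
    refine Finset.sum_congr rfl fun n' _ => ?_
    rw [← Finset.sum_filter, Finset.sum_const, nsmul_eq_mul, mul_one]
    have : I.filter (fun n => |y n - y n'| ≤ (R : ℝ)) =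
        I.filter (fun n => |y n' - y n| ≤ (R : ℝ)) := by
      refine Finset.filter_congr fun n _ => ?_
      rw [abs_sub_comm]
    rw [this]
    rfl
  have hSk : ∑ n ∈ I, (if n ∈ S then (k n : ℝ) else 0) = ∑ n ∈ S, (k n : ℝ) := by
    rw [← Finset.sum_filter]
    congr 1
    ext n
    rw [Finset.mem_filter]
    exact ⟨fun h => h.2, fun h => ⟨hSI h, h⟩⟩
  have htot : κ * M ≤ κ / 4 * M + κ / 4 * M + κ / 8 * M + 2 * ∑ n ∈ S, (k n : ℝ) := by
    refine hF.trans ((Finset.sum_le_sum hpt).trans ?_)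
    rw [Finset.sum_add_distrib, Finset.sum_add_distrib, Finset.sum_add_distrib,
      Finset.sum_add_distrib, hswap, hSk, ← Finset.mul_sum, ← Finset.mul_sum, ← Finset.mul_sum]
    have h2 : D * ∑ n ∈ I, ∑ n' ∈ I.filter (fun n' => (R : ℝ) < |y n - y n'|),
        1 / (y n - y n') ^ 2 ≤ κ / 4 * M := by
      calc _ ≤ D * (16 / (R : ℝ) * ∑ n ∈ I, (kI I y 1 n : ℝ)) :=
            mul_le_mul_of_nonneg_left (far_pairs I y R hR) hD
        _ ≤ D * (16 / (R : ℝ) * (C1 * M)) := by gcongr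
        _ = 16 * D * C1 / R * M := by ring
        _ ≤ κ / 4 * M := by gcongr
    have h3 : Real.pi * |θ - θ0| * R * ∑ n ∈ I, (k n : ℝ) ≤ κ / 4 * M := by
      calc _ ≤ Real.pi * |θ - θ0| * R * (CR * M) :=
            mul_le_mul_of_nonneg_left hk1 (by positivity)
        _ = Real.pi * |θ - θ0| * R * CR * M := by ring
        _ ≤ κ / 4 * M := by gcongr
    have h4 : ε * ∑ n ∈ I, (k n : ℝ) ≤ κ / 8 * M := by
      calc _ ≤ ε * (CR * M) := mul_le_mul_of_nonneg_left hk1 hε0.le
        _ = κ / 8 * M := by rw [hε]; field_simp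
    linarith
  have hcs := cs_card I S hSI k (CR * M) hk
  have hSbig : κ ^ 2 / (32 * CR) * M ≤ (S.card : ℝ) := by
    set X := ∑ n ∈ S, (k n : ℝ) with hX
    have h2 : 3 / 16 * (κ * M) ≤ X := by linarith
    have h3 : (3 / 16 * (κ * M)) ^ 2 ≤ X ^ 2 := pow_le_pow_left₀ (by positivity) h2 2
    have h4 : (3 / 16 * (κ * M)) ^ 2 ≤ (S.card : ℝ) * (CR * M) := h3.trans hcs
    rw [div_mul_eq_mul_div, div_le_iff₀ (by positivity)]
    have h5 : κ ^ 2 * M * M ≤ (S.card : ℝ) * (32 * CR) * M := by nlinarith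
    exact le_of_mul_le_mul_right h5 hM
  have hBbig : κ ^ 2 / (64 * CR) * M ≤ (B.card : ℝ) := by
    have h2 : (S.card : ℝ) ≤ B.card + Lt.card := by exact_mod_cast Finset.card_union_le _ _
    have h3 : κ ^ 2 / (32 * CR) * M = 2 * (κ ^ 2 / (64 * CR) * M) := by
      field_simp
      ring
    linarith
  calc κ ^ 2 / (64 * CR) * (c0 * ε ^ 2 / 6) * (M * Lg)
      = (κ ^ 2 / (64 * CR) * M) * (lam * Lg) := by rw [hlam]; ring
    _ ≤ (B.card : ℝ) * (lam * Lg) := mul_le_mul_of_nonneg_right hBbig (by positivity)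
    _ = ∑ n ∈ B, lam * Lg := by rw [Finset.sum_const, nsmul_eq_mul]
    _ ≤ ∑ n ∈ B, A n := Finset.sum_le_sum fun n hn => (Finset.mem_filter.1 hn).2
    _ ≤ ∑ n ∈ I, A n :=
        Finset.sum_le_sum_of_subset_of_nonneg (Finset.filter_subset _ _) fun n _ _ => hA0 n

end TH801.FM
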