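import Pool.Agent.TH801.FM.Win

/-! Uniformity in the frequency. -/

open Complex Filter Topology Set MeasureTheory

namespace TH801.FM

open H370 hiding PP
open H370.A3 SP H370.A2
open SG (ord NZ zmult ZS)
open H177.Lat

/-- the weighted pair sum of `sin ^ 2` over a window -/
noncomputable def SS (T t H θ : ℝ) : ℝ :=
  ∑ n ∈ Finset.Ioc (NZ t) (NZ (t + H)), ∑ m ∈ Finset.Ioc (NZ t) (NZ (t + H)),
    ww (ord n - ord m) * (Real.sin (Real.pi * θ * (yy T n - yy T m))) ^ 2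

/-- the bound holds for the frequencies in `s`, in almost all windows -/
def Prop1 (η : ℝ) (s : Set ℝ) : Prop :=
  ∃ c δ : ℝ, 0 < c ∧ 0 < δ ∧ ∃ T0 : ℝ, 100 ≤ T0 ∧ ∀ T : ℝ, T0 ≤ T → ∀ H : ℝ,
    T ^ η ≤ H → H ≤ T / 8 →
    volume {t : ℝ | t ∈ Set.Icc T (2 * T) ∧
      ¬ (∀ θ ∈ s, c * (H * Real.log T * Real.log T) ≤ SS T t H θ)} ≤ ENNReal.ofReal (T ^ (1 - δ))

lemma prop1_union (η : ℝ) (s s' : Set ℝ) (h1 : Prop1 η s) (h2 : Prop1 η s') : Prop1 η (s ∪ s') := by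
  obtain ⟨c1, δ1, hc1, hδ1, T1, hT1, g1⟩ := h1
  obtain ⟨c2, δ2, hc2, hδ2, T2, hT2, g2⟩ := h2
  set δ := min δ1 δ2 with hδ
  have hδ0 : 0 < δ := lt_min hδ1 hδ2
  have hev : ∀ᶠ T : ℝ in atTop, (2 : ℝ) ≤ T ^ (δ / 2) :=
    (tendsto_rpow_atTop (by positivity)).eventually_ge_atTop _
  obtain ⟨T3, hT3⟩ := hev.exists_forall_of_atTop
  refine ⟨min c1 c2, δ / 2, lt_min hc1 hc2, by positivity, max T1 (max T2 T3),
    hT1.trans (le_max_left _ _), fun T hT H hH1 hH2 => ?_⟩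
  have hTT1 : T1 ≤ T := (le_max_left _ _).trans hT
  have hTT2 : T2 ≤ T := ((le_max_left _ _).trans (le_max_right _ _)).trans hT
  have hTT3 : T3 ≤ T := ((le_max_right _ _).trans (le_max_right _ _)).trans hT
  have hT100 : 100 ≤ T := hT1.trans hTT1
  have hTpos : 0 < T := by linarith
  have hL : 0 ≤ Real.log T := Real.log_nonneg (by linarith)
  have hH0 : 0 ≤ H := (Real.rpow_nonneg hTpos.le _).trans hH1
  have hX : 0 ≤ H * Real.log T * Real.log T := by positivity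
  have e1 := g1 T hTT1 H hH1 hH2
  have e2 := g2 T hTT2 H hH1 hH2
  have hsub : {t : ℝ | t ∈ Set.Icc T (2 * T) ∧
      ¬ (∀ θ ∈ s ∪ s', min c1 c2 * (H * Real.log T * Real.log T) ≤ SS T t H θ)} ⊆
      {t : ℝ | t ∈ Set.Icc T (2 * T) ∧
        ¬ (∀ θ ∈ s, c1 * (H * Real.log T * Real.log T) ≤ SS T t H θ)} ∪
      {t : ℝ | t ∈ Set.Icc T (2 * T) ∧
        ¬ (∀ θ ∈ s', c2 * (H * Real.log T * Real.log T) ≤ SS T t H θ)} := by
    rintro t ⟨ht1, ht2⟩
    push Not at ht2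
    obtain ⟨θ, hθ, hlt⟩ := ht2
    rcases hθ with hθ | hθ
    · left
      refine ⟨ht1, fun hcon => ?_⟩
      have := hcon θ hθ
      have h3 : min c1 c2 * (H * Real.log T * Real.log T) ≤ c1 * (H * Real.log T * Real.log T) :=
        mul_le_mul_of_nonneg_right (min_le_left _ _) hX
      linarith
    · right
      refine ⟨ht1, fun hcon => ?_⟩
      have := hcon θ hθ
      have h3 : min c1 c2 * (H * Real.log T * Real.log T) ≤ c2 * (H * Real.log T * Real.log T) :=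
        mul_le_mul_of_nonneg_right (min_le_right _ _) hX
      linarith
  refine (measure_mono hsub).trans ((measure_union_le _ _).trans ((add_le_add e1 e2).trans ?_))
  rw [← ENNReal.ofReal_add (by positivity) (by positivity)]
  apply ENNReal.ofReal_le_ofReal
  have hp : ∀ δ' : ℝ, δ ≤ δ' → T ^ (1 - δ') ≤ T ^ (1 - δ) := fun δ' h =>
    Real.rpow_le_rpow_of_exponent_le (by linarith) (by linarith)
  have h3 := hp δ1 (min_le_left _ _)
  have h4 := hp δ2 (min_le_right _ _)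
  have h5 : T ^ (1 - δ / 2) = T ^ (δ / 2) * T ^ (1 - δ) := by
    rw [← Real.rpow_add hTpos]
    congr 1
    ring
  have h6 := hT3 T hTT3
  have h7 : 0 < T ^ (1 - δ) := Real.rpow_pos_of_pos hTpos _
  rw [h5]
  nlinarith

theorem almost_uniform (hRH : RiemannHypothesis) (η ε : ℝ) (hη : 0 < η) (hη1 : η < 1)
    (hε : 0 < ε) : Prop1 η (Set.Icc ε (1 + η - ε)) := by
  refine isCompact_Icc.induction_on (p := Prop1 η) ?_ ?_ ?_ ?_
  · refine ⟨1, 1, one_pos, one_pos, 100, le_rfl, fun T hT H _ _ => ?_⟩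
    have : {t : ℝ | t ∈ Set.Icc T (2 * T) ∧
      ¬ (∀ θ ∈ (∅ : Set ℝ), 1 * (H * Real.log T * Real.log T) ≤ SS T t H θ)} = ∅ := by
      ext t
      simp
    rw [this]
    simp
  · rintro s s' hss ⟨c, δ, hc, hδ, T0, hT0, g⟩
    refine ⟨c, δ, hc, hδ, T0, hT0, fun T hT H hH1 hH2 =>
      (measure_mono ?_).trans (g T hT H hH1 hH2)⟩
    rintro t ⟨ht1, ht2⟩
    exact ⟨ht1, fun hcon => ht2 fun θ hθ => hcon θ (hss hθ)⟩
  · intro s s' h1 h2
    exact prop1_union η s s' h1 h2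
  · intro θ0 hθ0
    obtain ⟨r, c, δ, hr, hc, hδ, T0, hT0, g⟩ := almost_window hRH η θ0 hη hη1
      (by linarith [hθ0.1]) (by linarith [hθ0.2])
    refine ⟨Metric.closedBall θ0 r, mem_nhdsWithin_of_mem_nhds (Metric.closedBall_mem_nhds θ0 hr),
      c, δ, hc, hδ, T0, hT0, fun T hT H hH1 hH2 => (measure_mono ?_).trans (g T hT H hH1 hH2)⟩
    rintro t ⟨ht1, ht2⟩
    refine ⟨ht1, fun hcon => ht2 fun θ hθ => hcon θ ?_⟩
    rw [Metric.mem_closedBall, Real.dist_eq] at hθ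
    exact hθ

end TH801.FM
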