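import Pool.Agent.TH801.FM.Core

/-! Windows: the phases `θ y n` of the zeros in `(t, t + H]` are not aligned at the scale `1`. -/

open Complex Filter Topology Set MeasureTheory

namespace TH801.FM

open H370 hiding PP
open H370.A3 SP H370.A2
open SG (ord NZ zmult ZS)
open H177.Lat

/-- Montgomery's weight -/
noncomputable def ww (u : ℝ) : ℝ := 4 / (4 + u ^ 2)

lemma ww_nonneg (u : ℝ) : 0 ≤ ww u := by unfold ww; positivity

lemma ww_shift {u v : ℝ} (h : |u - v| ≤ 1) : ww u ≤ 2 * ww v := by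
  unfold ww
  have h1 : v ^ 2 ≤ 2 * u ^ 2 + 2 := by
    have h2 : (u - v) ^ 2 ≤ 1 := by
      rw [← sq_abs]
      have := abs_nonneg (u - v)
      nlinarith
    nlinarith [sq_nonneg (u + v), sq_nonneg (2 * u - v)]
  rw [mul_div_assoc', div_le_div_iff₀ (by positivity) (by positivity)]
  nlinarith

lemma ww_one {u : ℝ} (h : |u| ≤ 1) : 4 / 5 ≤ ww u := by
  unfold ww
  have h2 : u ^ 2 ≤ 1 := by
    rw [← sq_abs]
    have := abs_nonneg u
    nlinarith
  rw [div_le_div_iff₀ (by norm_num) (by positivity)]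
  nlinarith

/-- few points have few neighbours at distance `1` -/
lemma light (t H X : ℝ) (hH : 0 ≤ H) (hX : 0 ≤ X) :
    (((Finset.Ioc (NZ t) (NZ (t + H))).filter (fun n =>
      ∑ m ∈ Finset.Ioc (NZ t) (NZ (t + H)), ww (ord n - ord m) < X)).card : ℝ) ≤
      (H + 2) * (5 / 4 * X) := by
  classical
  set I := Finset.Ioc (NZ t) (NZ (t + H)) with hI
  set S := I.filter (fun n => ∑ m ∈ I, ww (ord n - ord m) < X) with hS
  set f : ℕ → ℤ := fun n => ⌊ord n⌋ with hf
  have hfib : ∀ k ∈ S.image f, (S.filter (fun n => f n = k)).card ≤ ⌊5 / 4 * X⌋₊ := by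
    intro k hk
    obtain ⟨n, hn, hnk⟩ := Finset.mem_image.1 hk
    have hn2 := (Finset.mem_filter.1 hn).2
    apply Nat.le_floor
    have h1 : 4 / 5 * ((S.filter (fun n => f n = k)).card : ℝ) ≤
        ∑ m ∈ I, ww (ord n - ord m) := by
      calc 4 / 5 * ((S.filter (fun n => f n = k)).card : ℝ) =
          ∑ m ∈ S.filter (fun n => f n = k), (4 / 5 : ℝ) := by
            rw [Finset.sum_const, nsmul_eq_mul, mul_comm]
        _ ≤ ∑ m ∈ S.filter (fun n => f n = k), ww (ord n - ord m) := by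
            refine Finset.sum_le_sum fun m hm => ww_one ?_
            have h2 : f m = k := (Finset.mem_filter.1 hm).2
            have h3 : ⌊ord m⌋ = ⌊ord n⌋ := by
              have e1 : ⌊ord m⌋ = k := h2
              have e2 : ⌊ord n⌋ = k := hnk
              rw [e1, e2]
            have h4 := Int.floor_le (ord m)
            have h5 := Int.lt_floor_add_one (ord m)
            have h6 := Int.floor_le (ord n)
            have h7 := Int.lt_floor_add_one (ord n)
            rw [h3] at h4 h5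
            rw [abs_le]
            constructor <;> linarith
        _ ≤ ∑ m ∈ I, ww (ord n - ord m) := by
            refine Finset.sum_le_sum_of_subset_of_nonneg ?_ fun m _ _ => ww_nonneg _
            exact (Finset.filter_subset _ _).trans (Finset.filter_subset _ _)
    linarith
  have h1 := Finset.card_le_mul_card_image S _ hfib
  have h2 : ((S.image f).card : ℝ) ≤ H + 2 := by
    have hsub : S.image f ⊆ Finset.Icc ⌊t⌋ ⌊t + H⌋ := by
      intro k hk
      obtain ⟨n, hn, hnk⟩ := Finset.mem_image.1 hk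
      have hn1 := (Finset.mem_filter.1 hn).1
      rw [hI, Finset.mem_Ioc] at hn1
      have hn0 : 1 ≤ n := by omega
      have h3 : ord n ≤ t + H := (SG.ord_le_iff hn0 _).2 hn1.2
      have h4 : t < ord n := by
        by_contra hcon
        push Not at hcon
        have := (SG.ord_le_iff hn0 _).1 hcon
        omega
      rw [Finset.mem_Icc, ← hnk]
      exact ⟨Int.floor_le_floor h4.le, Int.floor_le_floor h3⟩
    have h3 : ((S.image f).card : ℝ) ≤ ((Finset.Icc ⌊t⌋ ⌊t + H⌋).card : ℝ) := by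
      exact_mod_cast Finset.card_le_card hsub
    refine h3.trans ?_
    rw [Int.card_Icc]
    have h4 : (⌊t⌋ : ℝ) ≤ ⌊t + H⌋ := by exact_mod_cast Int.floor_le_floor (by linarith : t ≤ t + H)
    have h5 : (0 : ℤ) ≤ ⌊t + H⌋ + 1 - ⌊t⌋ := by
      have : ⌊t⌋ ≤ ⌊t + H⌋ := by exact_mod_cast h4
      omega
    have h6 : (((⌊t + H⌋ + 1 - ⌊t⌋).toNat : ℕ) : ℝ) = ((⌊t + H⌋ + 1 - ⌊t⌋ : ℤ) : ℝ) := by
      have := Int.toNat_of_nonneg h5
      exact_mod_cast this
    rw [h6]
    push_cast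
    have h7 := Int.floor_le (t + H)
    have h8 := Int.lt_floor_add_one t
    linarith
  calc (S.card : ℝ) ≤ ((⌊5 / 4 * X⌋₊ * (S.image f).card : ℕ) : ℝ) := by exact_mod_cast h1
    _ = (⌊5 / 4 * X⌋₊ : ℝ) * ((S.image f).card : ℝ) := by push_cast; ring
    _ ≤ (5 / 4 * X) * (H + 2) := by
        have := Nat.floor_le (by positivity : 0 ≤ 5 / 4 * X)
        gcongr
    _ = _ := by ring

/-- Under the Riemann hypothesis, in almost all windows `(t, t + H]`, `H ≥ T ^ η0`, the phases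
`θ y n` are not aligned at the scale `1` (for the ordinates), uniformly for `θ` near `θ0`,
`0 < θ0 < 1 + η0`. -/
theorem almost_window (hRH : RiemannHypothesis) (η0 θ0 : ℝ) (hη0 : 0 < η0) (hη1 : η0 < 1)
    (hθ : 0 < θ0) (hθ1 : θ0 < 1 + η0) :
    ∃ r c δ : ℝ, 0 < r ∧ 0 < c ∧ 0 < δ ∧ ∃ T0 : ℝ, 100 ≤ T0 ∧ ∀ T : ℝ, T0 ≤ T → ∀ H : ℝ,
      T ^ η0 ≤ H → H ≤ T / 8 →
      volume {t : ℝ | t ∈ Set.Icc T (2 * T) ∧
        ¬ (∀ θ : ℝ, |θ - θ0| ≤ r → c * (H * Real.log T * Real.log T) ≤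
          ∑ n ∈ Finset.Ioc (NZ t) (NZ (t + H)), ∑ m ∈ Finset.Ioc (NZ t) (NZ (t + H)),
            ww (ord n - ord m) * (Real.sin (Real.pi * θ * (yy T n - yy T m))) ^ 2)} ≤
        ENNReal.ofReal (T ^ (1 - δ)) := by
  have hpi := Real.pi_pos
  set μ : ℝ := (θ0 / 2 + (1 + η0) / 2) / 2 with hμ
  have hμ1 : θ0 / 2 < μ := by rw [hμ]; linarith
  have hμ2 : 2 * μ < 1 + η0 := by rw [hμ]; linarith
  set g : ℝ := min (μ - θ0 / 2) (θ0 / 2) with hg
  have hg0 : 0 < g := lt_min (by linarith) (by linarith)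
  have hg1 : g ≤ μ - θ0 / 2 := min_le_left _ _
  have hg2 : g ≤ θ0 / 2 := min_le_right _ _
  set e : ℝ := g / 4 with he
  set a : ℝ := θ0 / 2 + g / 4 with ha
  set b : ℝ := θ0 / 2 - g / 4 with hb
  have he0 : 0 < e := by positivity
  have hab : b < a := by rw [ha, hb]; linarith
  have hbe : e ≤ b := by rw [hb, he]; linarith
  have hae : a + e ≤ μ := by rw [ha, he]; linarith
  have hsum : a + b = θ0 := by rw [ha, hb]; ring
  have hμpos : 0 < μ := by linarith
  set κ : ℝ := (a - b) / 4 with hκ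
  have hκ0 : 0 < κ := by rw [hκ]; linarith
  set D : ℝ := 1 / e ^ 2 with hD
  have hD0 : 0 ≤ D := by positivity
  obtain ⟨δ, hδ, T1, hT1, hP⟩ := almost_smooth hRH η0 μ ((a - b) * e / 2) hη0 hη1 hμpos hμ2
    (by have : 0 < a - b := by linarith
        positivity) (psi e a b) (2 / e) (psi_lip he0 a b)
    (psi_zero he0 hab hbe hae) (2 / e) (RR_psi_C he0 hab hbe hae)
  obtain ⟨C1, T2, hC1, hT2, h1⟩ := third hRH η0 1 hη0 hη1 zero_le_one
  obtain ⟨R, hR2, hRb⟩ : ∃ R : ℕ, 2 ≤ R ∧ 64 * D * C1 / κ ≤ R := by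
    refine ⟨max 2 ⌈64 * D * C1 / κ⌉₊, le_max_left _ _, (Nat.le_ceil _).trans ?_⟩
    exact_mod_cast le_max_right _ _
  obtain ⟨CR, T3, hCR, hT3, hk⟩ := third hRH η0 R hη0 hη1 (Nat.cast_nonneg _)
  have hR0 : (0 : ℝ) < R := by
    have : 0 < R := by omega
    exact_mod_cast this
  set r : ℝ := κ / (4 * (Real.pi * R * CR)) with hr
  have hr0 : 0 < r := by positivity
  set c0 : ℝ := κ ^ 2 / (64 * CR) / (8 * Real.pi) with hc0
  have hc00 : 0 < c0 := by positivity
  have hlogev := Real.tendsto_log_atTop.eventually_ge_atTop (2 * Real.pi * R)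
  have hHev : ∀ᶠ T : ℝ in atTop, (2 : ℝ) ≤ T ^ η0 := (tendsto_rpow_atTop hη0).eventually_ge_atTop _
  obtain ⟨T4, hT4⟩ := (hlogev.and hHev).exists_forall_of_atTop
  refine ⟨r, κ ^ 2 / (64 * CR) * (c0 * (κ / (8 * CR)) ^ 2 / 6) / (2 * Real.pi), δ, hr0,
    by positivity, hδ, max T1 (max T2 (max T3 T4)),
    hT2.trans ((le_max_left _ _).trans (le_max_right _ _)),
    fun T hT H hH1 hH2 => (measure_mono ?_).trans (hP T ((le_max_left _ _).trans hT) H hH1 hH2)⟩
  have hTT2 : T2 ≤ T := ((le_max_left _ _).trans (le_max_right _ _)).trans hT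
  have hTT3 : T3 ≤ T := (((le_max_left _ _).trans (le_max_right _ _)).trans (le_max_right _ _)).trans hT
  have hTT4 : T4 ≤ T := (((le_max_right _ _).trans (le_max_right _ _)).trans (le_max_right _ _)).trans hT
  obtain ⟨hlogR, hH2'⟩ := hT4 T hTT4
  have hT100 : 100 ≤ T := hT2.trans hTT2
  have hTpos : 0 < T := by linarith
  have hLpos : 0 < Real.log T := Real.log_pos (by linarith)
  have hHpos : 0 < H := lt_of_lt_of_le (Real.rpow_pos_of_pos hTpos _) hH1
  have hHge : 2 ≤ H := hH2'.trans hH1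
  set M : ℝ := H * Real.log T / (2 * Real.pi) with hM
  have hM0 : 0 < M := by positivity
  rintro t ⟨ht1, ht2⟩
  refine ⟨ht1, fun hcon => ht2 ?_⟩
  have hA1 : 1 ≤ t := by linarith [ht1.1]
  intro θ hθr
  have hfin := core2 (Finset.Ioc (NZ t) (NZ (t + H))) R hR2 θ0 θ κ D C1 CR M (Real.log T) c0 hκ0 hD0
    hCR hM0 hLpos hc00 ?_ ?_ (yy T)
    (fun x => KK e x / e) (fun x => div_nonneg (KK_nonneg he0 x) he0.le)
    (fun x => div_le_one_of_le₀ (KK_le he0 x) he0.le) ?_
    (h1 T hTT2 H hH1 hH2 t ht1.1 ht1.2) (hk T hTT3 H hH1 hH2 t ht1.1 ht1.2) ?_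
    (fun n m => ww (ord n - ord m)) (fun n m => ww_nonneg _) ?_ ?_
  · refine le_trans (le_of_eq ?_) hfin
    rw [hM]
    field_simp
  · rw [div_le_iff₀ hκ0] at hRb
    rw [div_le_iff₀ hR0]
    linarith
  · calc Real.pi * |θ - θ0| * R * CR ≤ Real.pi * r * R * CR := by gcongr
      _ = κ / 4 := by rw [hr]; field_simp
      _ ≤ κ / 4 := le_rfl
  · intro x
    have h2 := KK_sq he0 x
    have h3 : KK e x / e * x ^ 2 = (KK e x * x ^ 2) / e := by ring
    rw [h3, hD, div_le_iff₀ he0]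
    calc KK e x * x ^ 2 ≤ 1 / e := h2
      _ = 1 / e ^ 2 * e := by field_simp
  · rw [psi_main he0 hab hbe hae, PP_conv hRH hA1] at hcon
    have h2 := (abs_le.1 hcon).1
    have h3 : ∑ n ∈ Finset.Ioc (NZ t) (NZ (t + H)), ∑ n' ∈ Finset.Ioc (NZ t) (NZ (t + H)),
        RR (psi e a b) μ (ord n * Real.log T / (2 * Real.pi) -
          ord n' * Real.log T / (2 * Real.pi)) ≤
        2 * e * ∑ n ∈ Finset.Ioc (NZ t) (NZ (t + H)), ∑ n' ∈ Finset.Ioc (NZ t) (NZ (t + H)),
        KK e (yy T n - yy T n') / e * |Real.sin (Real.pi * θ0 * (yy T n - yy T n'))| := by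
      rw [Finset.mul_sum]
      refine Finset.sum_le_sum fun n _ => ?_
      rw [Finset.mul_sum]
      refine Finset.sum_le_sum fun n' _ => ?_
      have h4 := RR_psi_abs he0 hab hbe hae (yy T n - yy T n')
      rw [hsum] at h4
      exact (le_abs_self _).trans h4
    have h5 : (a - b) * e / 2 * M ≤ 2 * e * ∑ n ∈ Finset.Ioc (NZ t) (NZ (t + H)),
        ∑ n' ∈ Finset.Ioc (NZ t) (NZ (t + H)),
        KK e (yy T n - yy T n') / e * |Real.sin (Real.pi * θ0 * (yy T n - yy T n'))| := by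
      refine le_trans ?_ h3
      have e1 : M * ((a - b) * e) - (a - b) * e / 2 * M = (a - b) * e / 2 * M := by ring
      linarith
    have h6 : (a - b) * e / 2 * M = 2 * e * (κ * M) := by rw [hκ]; ring
    rw [h6] at h5
    exact le_of_mul_le_mul_left h5 (by positivity)
  · intro n _ n' _ hnn m _
    apply ww_shift
    have e1 : ord n - ord m - (ord n' - ord m) = (yy T n - yy T n') * (2 * Real.pi / Real.log T) := by
      unfold yy
      field_simp
      ring
    rw [e1, abs_mul, abs_of_pos (by positivity : 0 < 2 * Real.pi / Real.log T)]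
    calc |yy T n - yy T n'| * (2 * Real.pi / Real.log T) ≤ R * (2 * Real.pi / Real.log T) := by
          gcongr
      _ ≤ 1 := by
          rw [mul_div_assoc', div_le_one hLpos]
          linarith
  · refine (light t H (c0 * Real.log T) hHpos.le (by positivity)).trans ?_
    calc (H + 2) * (5 / 4 * (c0 * Real.log T)) ≤ (H + H) * (5 / 4 * (c0 * Real.log T)) := by gcongr
      _ ≤ κ ^ 2 / (64 * CR) * M := by
          have e1 : κ ^ 2 / (64 * CR) * M = 4 * (c0 * (H * Real.log T)) := by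
            rw [hc0, hM]
            field_simp
            ring
          rw [e1]
          have : 0 ≤ c0 * (H * Real.log T) := by positivity
          nlinarith

end TH801.FM
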